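import Mathlib
import Pool.Agent.W543.GE.Stm

/-!
# Good endomorphisms of free algebras: evaluations in division algebras
-/

set_option autoImplicit false

open Pool.Agent.W543.GE

universe u v

namespace Pool.Agent.W230.GE

theorem word_prod {K : Type u} [Field K] {L : Type u} [Field L] [Algebra K L] (σ : L ≃ₐ[K] L)
    {D : Type u} [Ring D] [Algebra K D] (e : L →ₐ[K] D) (t : D)
    (ht : ∀ l, t * e l = e (σ l) * t) {n : ℕ} (l : Fin n → L) :
    ∀ (k : ℕ) (w : Fin k → Fin n),
      ((List.ofFn w).map (fun i => e (l i) * t)).prod =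
        e (∏ j : Fin k, (σ ^ (j : ℕ)) (l (w j))) * t ^ k := by
  intro k
  induction k with
  | zero => intro w; simp
  | succ k ih =>
    intro w
    rw [List.ofFn_succ, List.map_cons, List.prod_cons, ih, Fin.prod_univ_succ]
    have h1 : ∏ i : Fin k, (σ ^ ((Fin.succ i : Fin (k + 1)) : ℕ)) (l (w (Fin.succ i))) =
        σ (∏ i : Fin k, (σ ^ (i : ℕ)) (l (w (Fin.succ i)))) := by
      rw [map_prod]
      refine Finset.prod_congr rfl fun i _ => ?_
      rw [Fin.val_succ, pow_succ']
      rfl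
    rw [h1]
    have h2 : (σ ^ ((0 : Fin (k + 1)) : ℕ)) (l (w 0)) = l (w 0) := by
      rw [Fin.val_zero, pow_zero]; rfl
    rw [h2, map_mul, pow_succ', mul_assoc, ← mul_assoc t, ht, mul_assoc, mul_assoc]

theorem ev_eq_sum {K : Type u} [Field K] {n : ℕ} {D : Type u} [Ring D] [Algebra K D]
    (d : Fin n → D) (a : A K n) :
    ev d a = ((FreeAlgebra.equivMonoidAlgebraFreeMonoid a).coeff).sum
      (fun w c => c • (w.toList.map d).prod) := by
  have h1 : (ev d : A K n →ₐ[K] D) =
      (MonoidAlgebra.lift K D (FreeMonoid (Fin n)) (FreeMonoid.lift d)).comp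
        (FreeAlgebra.equivMonoidAlgebraFreeMonoid : A K n ≃ₐ[K] _).toAlgHom := by
    ext i
    simp [FreeAlgebra.equivMonoidAlgebraFreeMonoid]
  have h2 : ev d a = MonoidAlgebra.lift K D (FreeMonoid (Fin n)) (FreeMonoid.lift d)
      (FreeAlgebra.equivMonoidAlgebraFreeMonoid a) := by
    rw [h1]; rfl
  rw [h2, MonoidAlgebra.lift_apply]
  refine Finsupp.sum_congr fun w _ => ?_
  rw [FreeMonoid.lift_apply]

theorem t_DIV (h1 : DIVA_stmt.{u}) (h2 : DIVB_stmt.{u}) : DIV_stmt.{u} := by
  classical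
  intro K _ n a ha
  set f : FreeMonoid (Fin n) →₀ K := (FreeAlgebra.equivMonoidAlgebraFreeMonoid a).coeff with hf
  have hf0 : f ≠ 0 := by
    intro h
    apply ha
    have : FreeAlgebra.equivMonoidAlgebraFreeMonoid a = 0 := by
      rw [← MonoidAlgebra.coeff_eq_zero]; exact h
    exact (map_eq_zero_iff _ (FreeAlgebra.equivMonoidAlgebraFreeMonoid).injective).1 this
  obtain ⟨N, hN0, hN⟩ : ∃ N : ℕ, 0 < N ∧ ∀ w ∈ f.support, w.toList.length < N := by
    refine ⟨(f.support.sup fun w => w.toList.length) + 1, Nat.succ_pos _, fun w hw => ?_⟩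
    exact Nat.lt_succ_of_le (Finset.le_sup (f := fun w : FreeMonoid (Fin n) => w.toList.length) hw)
  obtain ⟨L, _, _, σ, l, hσ, hl⟩ := h1 K n N hN0
  obtain ⟨D, _, _, _, F, _, _, ρ, e, t, hD, hρ, ht, hc⟩ := h2 K L σ N hN0 hσ
  refine ⟨D, inferInstance, inferInstance, inferInstance, F, inferInstance, inferInstance, N, ρ,
    fun i => e (l i) * t, hD, hρ, fun h0 => ?_⟩
  let g : (Σ k : Fin N, (Fin (k : ℕ) → Fin n)) → FreeMonoid (Fin n) :=
    fun p => FreeMonoid.ofList (List.ofFn p.2)
  have hg : Function.Injective g := by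
    rintro ⟨⟨k, hk⟩, w⟩ ⟨⟨k', hk'⟩, w'⟩ h
    have h3 : List.ofFn w = List.ofFn w' := h
    have h4 : k = k' := by
      have := congrArg List.length h3
      simpa using this
    subst h4
    have h5 := List.ofFn_injective h3
    subst h5
    rfl
  have h3 : ev (fun i => e (l i) * t) a = ∑ k : Fin N, e (∑ w : Fin (k : ℕ) → Fin n,
      f (FreeMonoid.ofList (List.ofFn w)) • ∏ j : Fin (k : ℕ), (σ ^ (j : ℕ)) (l (w j))) *
        t ^ (k : ℕ) := by
    rw [ev_eq_sum, ← hf, Finsupp.sum]
    have h4 : f.support ⊆ Finset.univ.image g := by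
      intro w hw
      rw [Finset.mem_image]
      refine ⟨⟨⟨w.toList.length, hN w hw⟩, w.toList.get⟩, Finset.mem_univ _, ?_⟩
      show FreeMonoid.ofList (List.ofFn w.toList.get) = w
      rw [List.ofFn_get]
      rfl
    rw [Finset.sum_subset h4 (fun w _ hw => by
      rw [Finsupp.notMem_support_iff.1 hw, zero_smul]), Finset.sum_image hg.injOn,
      Fintype.sum_sigma]
    refine Finset.sum_congr rfl fun k _ => ?_
    rw [map_sum, Finset.sum_mul]
    refine Finset.sum_congr rfl fun w _ => ?_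
    rw [map_smul, smul_mul_assoc, ← word_prod σ e t ht l]
    rfl
  rw [h3] at h0
  have h4 := hc N _ h0
  apply hf0
  ext w
  rw [Finsupp.zero_apply]
  by_contra hw
  have hw' : w ∈ f.support := Finsupp.mem_support_iff.2 hw
  have h5 := congrFun h4 ⟨w.toList.length, hN w hw'⟩
  have h6 := hl w.toList.length (hN w hw').le
  rw [Fintype.linearIndependent_iff] at h6
  have h7 := h6 _ h5 w.toList.get
  apply hw
  rw [List.ofFn_get] at h7
  exact h7

end Pool.Agent.W230.GE
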